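import Pool.Agent.Lib.MP_b9c5ac_co.Defs
import Pool.Agent.Lib.MP_b9c5ac_co.Tree
import Pool.Agent.Lib.MP_b9c5ac_co.Girth
import Pool.Agent.Lib.MP_b9c5ac_co.Cyc
import Pool.Agent.Lib.MP_b9c5ac_co.Color

set_option autoImplicit false

namespace Pool.Agent.Results.MP_b9c5ac_co.GirthSix

open Pool.Agent.Lib.MP_b9c5ac_co

/-- **Theorem.** There is a `T_6`-snark (on `190` vertices) of girth at least `6`. -/
theorem result : ∃ G : SimpleGraph (Fin 190), IsTSnark 6 G ∧ 6 ≤ G.egirth :=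
  ⟨G, ⟨⟨cubic, cyc4, le_trans (by norm_num) girth_ge, not_colorable⟩, T, T_le_G, T_isTreeT⟩,
    girth_ge⟩

end Pool.Agent.Results.MP_b9c5ac_co.GirthSix
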